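import Pool.Agent.H82.LM.YFin

/-!
# MP_b7b141_lc: relative to some oracle Q1 holds at every level `k ≥ 2`

The definitions (oracle machines `Prog`, `SigF k`, `DelF k`, the measure `mu`, `LmR`, `LSigR`,
`LDelR`, many-one reductions) are in `Pool/Agent/H82/LM/Defs.lean` and
`Pool/Agent/H9/Machine.lean`.
-/

set_option autoImplicit false

namespace Pool.Agent.Results.MP_b7b141_lc.CollapsingOracle

open Pool.Agent.H9 Pool.Agent.H82.LM

/-- There is an oracle `Y` relative to which all the classes `L Delta_k^p` and `L Sigma_k^p` with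
`k ≥ 2` are equal (to `L Delta_2^p` relative to `Y`). -/
theorem result : ∃ Y : Oracle, ∀ k, 2 ≤ k → LDelR Y k = LDelR Y 2 ∧ LSigR Y k = LDelR Y 2 :=
  exists_collapse'

end Pool.Agent.Results.MP_b7b141_lc.CollapsingOracle
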