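import Pool.Agent.H82.LM.Fin

/-!
# MP_b7b141_lc: `L Delta_k^p` and `L Sigma_k^p` are always equivalent for `k ≥ 2`, and equal only if
the polynomial hierarchy collapses

The definitions (oracle machines `Prog`, `SigF k`, `DelF k`, the measure `mu`, `Lm`, `LSig`, `LDel`,
many-one reductions, `Q1`) are in `Pool/Agent/H82/LM/Defs.lean` and `Pool/Agent/H9/Machine.lean`.
-/

set_option autoImplicit false

namespace Pool.Agent.Results.MP_b7b141_lc.EquivalentLevels

open Pool.Agent.H9 Pool.Agent.H82.LM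

/-- The classes `L Sigma_k^p` (`k ≥ 1`) and `L Delta_k^p` (`k ≥ 2`) are all equivalent to each other
under polynomial time many-one reductions (and to `L NP = LSig 1`); so the hypothesis of Q1 holds
for every `k ≥ 2`. If `L Delta_k^p = L Sigma_k^p` then `Sigma_k^p ⊆ Delta_k^p`. Hence Q1 implies that
the polynomial hierarchy collapses to `Delta_2^p = P^NP`. -/
theorem result :
    (∀ k, 1 ≤ k → MEq (LSig k) (LSig 1)) ∧
    (∀ k, 2 ≤ k → MEq (LDel k) (LSig k)) ∧
    (∀ k, 1 ≤ k → LDel k = LSig k → SigP k ⊆ DelP k) ∧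
    (Q1 → ∀ k, SigP k ⊆ DelP 2) :=
  ⟨fun k hk => ⟨LSig_le k, mle_trans_sub (LSig_le 1) (LSig_mono hk)⟩, fun _ hk => meq0 hk,
    fun _ _ h => eq0 h, q1_collapse⟩

end Pool.Agent.Results.MP_b7b141_lc.EquivalentLevels
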