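import Pool.Agent.H82.LM.Fin
import Pool.Agent.H82.LM.USep
import Pool.Agent.H82.LM.URO

/-!
# MP_b7b141_lc: relative to a random oracle Q1 fails at every level `k ≥ 2`

The definitions (oracle machines `Prog`, `SigF k`, `DelF k`, the measure `mu`, `LmR`, `LSigR`,
`LDelR`, many-one reductions) are in `Pool/Agent/H82/LM/Defs.lean` and
`Pool/Agent/H9/Machine.lean`.
-/

set_option autoImplicit false

namespace Pool.Agent.Results.MP_b7b141_lc.RandomOracle

open Pool.Agent.H9 Pool.Agent.H82.LM MeasureTheory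

/-- If `L Delta_(k+1)^p = L Sigma_k^p` relative to `Y`, then `Delta_(k+1)^(p,Y) ⊆ Sigma_k^(p,Y)`. -/
theorem eqR' {k : ℕ} {Y : Oracle} (h : LSigR Y k = LDelR Y (k + 1)) {B : Fam}
    (hB : B ∈ DelF (k + 1)) : ∃ B' ∈ SigF k, B' Y = B Y := by
  have hB1 := delF_comp hB (Φ := fun A w => A (true :: w)) (OP.rightO _)
  have hm : LmR Y (fun A => B (fun w => A (true :: w))) ∈ LSigR Y k := by
    rw [h]; exact ⟨_, hB1, rfl⟩
  obtain ⟨B2, hB2, he⟩ := hm
  have hmeas : ∀ x : List Bool, mu.real {_Z : Oracle | x ∈ B Y} =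
      mu.real {Z | x ∈ B2 (join Z Y)} := by
    intro x
    apply eq_of_thresholds measureReal_nonneg measureReal_nonneg
    intro k n hk
    rw [← mem_lmR hk (B := B2), ← he, mem_lmR hk]
    rfl
  refine ⟨fun A => B2 (join (fun _ => false) A),
    sigF_comp hB2 (Φ := fun A => join (fun _ => false) A) (OP.joinR _), ?_⟩
  ext x
  exact const_of_measureR (sigF_sub_delF k hB2) Y x (x ∈ B Y)
    (fun hx => by rw [← hmeas]; exact (real_const _).1 hx)
    (fun hx => by rw [← hmeas]; exact (real_const _).2 hx) (fun _ => false)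

/-- If `Delta_(k+1)^Y ⊆ Sigma_k^Y` then `Sigma_(k+1)^Y ⊆ Sigma_k^Y`. -/
theorem sep' {k : ℕ} (hk : 1 ≤ k) {Y : Oracle}
    (h : ∀ B ∈ DelF (k + 1), ∃ B' ∈ SigF k, B' Y = B Y)
    {B : Fam} (hB : B ∈ SigF (k + 1)) : B Y ∈ SigmaP Y k := by
  obtain ⟨n, G, hG, hBG⟩ := sigF_succ hB
  obtain ⟨G', hG', he⟩ := h _ (delF_compl (sigF_sub_delF k hG))
  have h1 := sigmaP_of_sigF (sigF_ex hk hG' n) Y
  have h2 : B Y = {x : List Bool | ∃ u : List Bool, u.length = n.eval x.length ∧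
      adr u x ∈ G' Y} := by
    ext x
    rw [hBG Y x, he]
    exact Iff.rfl
  rw [h2]
  exact h1

/-- With probability one relative to a random oracle `Y`, the classes
`L NP ⊊ L Delta_2^p ⊊ L Sigma_2^p ⊊ L Delta_3^p ⊊ L Sigma_3^p ⊊ ...` relative to `Y` are strictly
increasing, but any two of them are equivalent under polynomial time many-one reductions; in
particular Q1 relative to `Y` fails for every `k ≥ 2`. -/
theorem result :
    ∀ᵐ Y ∂mu,
      (∀ k, 1 ≤ k → LSigR Y k ⊂ LDelR Y (k + 1)) ∧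
      (∀ k, 2 ≤ k → LDelR Y k ⊂ LSigR Y k) ∧
      (∀ k, 1 ≤ k → MEq (LSigR Y 1) (LSigR Y k)) ∧
      (∀ k, 2 ≤ k → MEq (LDelR Y k) (LSigR Y k)) := by
  filter_upwards [ae_Lk] with Y hY
  refine ⟨fun k hk => ⟨LSigR_sub_LDelR Y k, fun h => ?_⟩, fun k hk => ⟨?_, fun h => ?_⟩,
    fun k hk => ⟨mle_trans_sub (LSigR_le Y 1) (LSigR_mono Y hk), LSigR_le Y k⟩,
    fun k hk => meqR Y hk⟩
  · have he : LSigR Y k = LDelR Y (k + 1) := Set.Subset.antisymm (LSigR_sub_LDelR Y k) h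
    exact hY k (sep' hk (fun B hB => eqR' he hB) (Lk_family k))
  · rintro L ⟨B, hB, rfl⟩
    obtain ⟨m, rfl⟩ : ∃ m, k = m + 1 := ⟨k - 1, by omega⟩
    exact ⟨B, delF_sub_sigF (by omega) hB, rfl⟩
  · have hsub : LDelR Y k ⊆ LSigR Y k := by
      rintro L ⟨B, hB, rfl⟩
      obtain ⟨m, rfl⟩ : ∃ m, k = m + 1 := ⟨k - 1, by omega⟩
      exact ⟨B, delF_sub_sigF (by omega) hB, rfl⟩
    have he : LDelR Y k = LSigR Y k := Set.Subset.antisymm hsub h
    exact hY k (sep hk (fun B hB => eqR he hB) (Lk_family k))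

end Pool.Agent.Results.MP_b7b141_lc.RandomOracle
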